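import Pool.Agent.H29.FL4.Stmts

/-!
Board `fl4`, row CON (helper23): equivalences of the lattices `Λ_s` are units of `O`.
-/

set_option autoImplicit false

open Matrix MeasureTheory

namespace Pool.FL4

open Pool.FLT

namespace CON23

theorem inO_add {i : ℕ} {z w : Fin 4 → ℝ} (hz : inO i z) (hw : inO i w) :
    inO i (fun j => z j + w j) := by
  obtain ⟨m, hm⟩ := hz
  obtain ⟨n, hn⟩ := hw
  refine ⟨fun k => m k + n k, fun j => ?_⟩
  change z j + w j = _
  rw [hm, hn]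
  push_cast
  ring

theorem inO_mul {i : ℕ} (hr : ∀ j, r j ^ 2 = 2) (hy : ∀ j, yy i j ^ 2 = be i j ^ 2 - 1)
    {z w : Fin 4 → ℝ} (hz : inO i z) (hw : inO i w) : inO i (fun j => z j * w j) := by
  obtain ⟨m, hm⟩ := hz
  obtain ⟨n, hn⟩ := hw
  refine ⟨![m 0 * n 0 + 2 * (m 1 * n 1) +
      (m 2 * n 2 + 2 * (m 3 * n 3)) * (P i ^ 2 + 2 * (Q i + 1) ^ 2 - 1) +
        2 * ((m 2 * n 3 + m 3 * n 2) * (2 * P i * (Q i + 1))),
    m 0 * n 1 + m 1 * n 0 + (m 2 * n 2 + 2 * (m 3 * n 3)) * (2 * P i * (Q i + 1)) +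
      (m 2 * n 3 + m 3 * n 2) * (P i ^ 2 + 2 * (Q i + 1) ^ 2 - 1),
    m 0 * n 2 + 2 * (m 1 * n 3) + m 2 * n 0 + 2 * (m 3 * n 1),
    m 0 * n 3 + m 1 * n 2 + m 2 * n 1 + m 3 * n 0], fun j => ?_⟩
  change z j * w j = _
  rw [hm, hn]
  have hrj := hr j
  have hyj : yy i j ^ 2 = ((P i : ℝ) ^ 2 + 2 * (Q i + 1) ^ 2 - 1) + 2 * P i * (Q i + 1) * r j := by
    rw [hy]
    unfold be
    linear_combination ((Q i : ℝ) + 1) ^ 2 * hrj
  simp only [Matrix.cons_val_zero, Matrix.cons_val_one, Matrix.cons_val]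
  push_cast
  linear_combination ((m 1 : ℝ) * n 1 + yy i j * (m 1 * n 3 + m 3 * n 1) +
    m 3 * n 3 * (((P i : ℝ) ^ 2 + 2 * (Q i + 1) ^ 2 - 1) + 2 * P i * (Q i + 1) * r j) +
    (m 2 * n 3 + m 3 * n 2) * (2 * P i * (Q i + 1))) * hrj +
    ((m 2 : ℝ) + m 3 * r j) * (n 2 + n 3 * r j) * hyj

theorem inL_inO {i : ℕ} (hr : ∀ j, r j ^ 2 = 2) {s : ℤ} {z : Fin 4 → ℝ} (hz : inL i s z) :
    inO i z := by
  obtain ⟨m, hm⟩ := hz
  refine ⟨![-(s * m 0) + m 2 * P i + 2 * (m 3 * (Q i + 1)),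
    -(s * m 1) + m 2 * (Q i + 1) + m 3 * P i, m 0, m 1], fun j => ?_⟩
  rw [hm]
  have hrj := hr j
  simp only [Matrix.cons_val_zero, Matrix.cons_val_one, Matrix.cons_val]
  unfold be
  push_cast
  linear_combination ((m 3 : ℝ) * (Q i + 1)) * hrj

/-- multiplication by `d` maps `O` to `O` -/
theorem mul_d {i : ℕ} (hr : ∀ j, r j ^ 2 = 2) (hy : ∀ j, yy i j ^ 2 = be i j ^ 2 - 1)
    (hN : P i ^ 2 - 2 * Q i ^ 2 = 1) (s a b : ℤ) (hab : a * (s ^ 2 + 1) + b * (4 * Q i + 1) = 1)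
    (d : Fin 4 → ℝ) (h1 : inO i (fun j => (yy i j - s) * d j)) (h2 : inO i (fun j => be i j * d j))
    {z : Fin 4 → ℝ} (hz : inO i z) : inO i (fun j => z j * d j) := by
  have hw : inO i (fun j => -(a * (yy i j + s))) := by
    refine ⟨![-(a * s), 0, -a, 0], fun j => ?_⟩
    simp only [Matrix.cons_val_zero, Matrix.cons_val_one, Matrix.cons_val]
    push_cast
    ring
  have hk : inO i (fun j => a * be i j - b * (P i - (Q i + 1) * r j)) := by
    refine ⟨![(a - b) * P i, (a + b) * (Q i + 1), 0, 0], fun j => ?_⟩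
    simp only [Matrix.cons_val_zero, Matrix.cons_val_one, Matrix.cons_val]
    unfold be
    push_cast
    ring
  have h3 := inO_add (inO_mul hr hy (inO_mul hr hy hz hw) h1) (inO_mul hr hy (inO_mul hr hy hz hk) h2)
  have h4 : (fun j => z j * d j) = fun j => z j * -(a * (yy i j + s)) * ((yy i j - s) * d j) +
      z j * (a * be i j - b * (P i - (Q i + 1) * r j)) * (be i j * d j) := by
    funext j
    have hrj := hr j
    have hyj := hy j
    have habR : (a : ℝ) * (s ^ 2 + 1) + b * (4 * Q i + 1) = 1 := by exact_mod_cast hab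
    have hNR : (P i : ℝ) ^ 2 - 2 * Q i ^ 2 = 1 := by exact_mod_cast hN
    have h5 : (1 : ℝ) = -(a * (yy i j + s)) * (yy i j - s) +
        (a * be i j - b * (P i - (Q i + 1) * r j)) * be i j := by
      have h6 : (P i - (Q i + 1) * r j) * be i j = -(4 * (Q i : ℝ) + 1) := by
        unfold be
        linear_combination hNR - ((Q i : ℝ) + 1) ^ 2 * hrj
      linear_combination -habR + (a : ℝ) * hyj + (b : ℝ) * h6
    linear_combination z j * d j * h5
  rw [h4]
  exact h3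

/-- an integer matrix for multiplication by `d` -/
theorem mat_d {i : ℕ} (d : Fin 4 → ℝ) (h : ∀ z : Fin 4 → ℝ, inO i z → inO i (fun j => z j * d j)) :
    ∃ η : Matrix (Fin 4) (Fin 4) ℤ, cst η * G0 i = G0 i * diagonal d := by
  have h0 : ∀ a : Fin 4, inO i (G0 i a) := by
    intro a
    refine ⟨Pi.single a 1, fun j => ?_⟩
    fin_cases a <;> simp [G0]
  choose m hm using fun a => h _ (h0 a)
  refine ⟨Matrix.of m, ?_⟩
  ext a j
  have h1 : G0 i a j * d j = _ := hm a j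
  rw [Matrix.mul_diagonal, Matrix.mul_apply, Fin.sum_univ_four, h1]
  simp [G0, cst]
  ring

end CON23

open CON23 in
theorem con (hSEQ : SEQStmt) (hPOS : POSStmt) (hDET : DETStmt) : CONStmt := by
  intro i hi s hs s' hs' d hd
  obtain ⟨hN, -, hQ, -, -, -, -, -⟩ := hSEQ i
  obtain ⟨hr, hy, -⟩ := hPOS i hi
  obtain ⟨hdet, -⟩ := hDET i hi
  obtain ⟨hd0, hdL⟩ := hd
  have hco : ∀ s ∈ SS i, ∃ a b : ℤ, a * ((s : ℤ) ^ 2 + 1) + b * (4 * Q i + 1) = 1 := by
    intro s hs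
    unfold SS at hs
    rw [Finset.mem_filter] at hs
    have h1 := Nat.isCoprime_iff_coprime.2 hs.2
    have h2 : (((4 * Q i + 1).toNat : ℕ) : ℤ) = 4 * Q i + 1 := Int.toNat_of_nonneg (by omega)
    rw [h2] at h1
    obtain ⟨a, b, hab⟩ := h1
    refine ⟨a, b, ?_⟩
    push_cast at hab
    exact hab
  have hLy : ∀ s : ℤ, inL i s (fun j => yy i j - s) := by
    intro s
    refine ⟨![1, 0, 0, 0], fun j => ?_⟩
    simp
  have hLb : ∀ s : ℤ, inL i s (fun j => be i j) := by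
    intro s
    refine ⟨![0, 0, 1, 0], fun j => ?_⟩
    simp
  -- multiplication by `d`
  have hA : ∀ z : Fin 4 → ℝ, inO i z → inO i (fun j => z j * d j) := by
    obtain ⟨a, b, hab⟩ := hco s hs
    intro z hz
    exact mul_d hr hy hN s a b hab d (inL_inO hr ((hdL _).1 (hLy s)))
      (inL_inO hr ((hdL _).1 (hLb s))) hz
  -- multiplication by the inverse
  have hB : ∀ z : Fin 4 → ℝ, inO i z → inO i (fun j => z j * (d j)⁻¹) := by
    obtain ⟨a, b, hab⟩ := hco s' hs'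
    intro z hz
    have hinv : ∀ z : Fin 4 → ℝ, inL i (s' : ℤ) z → inL i (s : ℤ) (fun j => z j * (d j)⁻¹) := by
      intro z hz
      rw [hdL]
      have h1 : (fun j => z j * (d j)⁻¹ * d j) = z := by
        funext j
        rw [inv_mul_cancel_right₀ (hd0 j)]
      rw [h1]
      exact hz
    exact mul_d hr hy hN s' a b hab (fun j => (d j)⁻¹) (inL_inO hr (hinv _ (hLy s')))
      (inL_inO hr (hinv _ (hLb s'))) hz
  obtain ⟨η, hη⟩ := mat_d d hA
  obtain ⟨η', hη'⟩ := mat_d (fun j => (d j)⁻¹) hB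
  have hdt : ∀ η : Matrix (Fin 4) (Fin 4) ℤ, (cst η).det = (η.det : ℝ) := by
    intro η
    unfold cst
    exact (Int.cast_det (R := ℝ) η).symm
  have h1 : (η.det : ℝ) = ∏ j, d j := by
    have h2 := congrArg Matrix.det hη
    rw [Matrix.det_mul, Matrix.det_mul, Matrix.det_diagonal, hdt, mul_comm] at h2
    exact mul_left_cancel₀ hdet h2
  have h2 : (η'.det : ℝ) = ∏ j, (d j)⁻¹ := by
    have h2 := congrArg Matrix.det hη'
    rw [Matrix.det_mul, Matrix.det_mul, Matrix.det_diagonal, hdt, mul_comm] at h2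
    exact mul_left_cancel₀ hdet h2
  have h3 : (η.det : ℝ) * η'.det = 1 := by
    rw [h1, h2, ← Finset.prod_mul_distrib]
    exact Finset.prod_eq_one fun j _ => mul_inv_cancel₀ (hd0 j)
  have h4 : η.det * η'.det = 1 := by exact_mod_cast h3
  have h5 : |η.det| = 1 := Int.isUnit_iff_abs_eq.1 (IsUnit.of_mul_eq_one _ h4)
  have h6 : ∏ j, |d j| = 1 := by
    rw [← Finset.abs_prod, ← h1]
    exact_mod_cast h5
  have h7 : ∑ j, Real.log |d j| = 0 := by
    rw [← Real.log_prod (fun j _ => abs_ne_zero.mpr (hd0 j)), h6, Real.log_one]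
  refine ⟨⟨WithLp.toLp 2 fun j => Real.log |d j|, h7⟩, ⟨η, d, ?_, ?_⟩, ?_⟩
  · unfold Dg nrm
    rw [dif_pos hdet]
    change cst η * (G0 i * diagonal _) = G0 i * diagonal _ * diagonal d
    rw [← Matrix.mul_assoc, hη, Matrix.mul_assoc, Matrix.mul_assoc, Matrix.diagonal_mul_diagonal,
      Matrix.diagonal_mul_diagonal]
    congr 2
    funext j
    exact mul_comm _ _
  · intro j
    exact (Real.exp_log (abs_pos.mpr (hd0 j))).symm
  · intro j
    exact (Real.exp_log (abs_pos.mpr (hd0 j))).symm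

end Pool.FL4
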